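import Pool.Agent.Helper27.OT.Defs

/-!
# MP_2857a5_co : path systems (used by BL, RO and the final files)
-/

set_option autoImplicit false

namespace OT

/-- A system of paths through the sets `W 0, ..., W k` following the pattern `b`, disjoint in each
layer. -/
def PSys {V : Type} (D : V → V → Prop) (k : ℕ) (b : ℕ → Bool) (W : ℕ → Finset V) {L : Type}
    (p : L → ℕ → V) : Prop :=
  (∀ l, ∀ i ≤ k, p l i ∈ W i) ∧ (∀ i ≤ k, Function.Injective fun l => p l i) ∧
    ∀ l, ∀ i < k, Adj D (b i) (p l i) (p l (i + 1))

end OT
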