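import Pool.Agent.Helper37.OT.KL
import Pool.Agent.Helper37.OT.GoodLine
import Pool.Agent.Helper73.OT.PSys

/-!
# MP_2857a5_co, module BL: blocks
-/

set_option autoImplicit false

open Finset
open scoped Classical

namespace OT

noncomputable section

/-! ### The two exchanges -/

section Exch

variable {L : Type} (A : Finset L) (c inv τ : L → L)

/-- exchange `a` and `c a` for `a ∈ A` -/
def ex1 (l : L) : L := if l ∈ A then c l else if l ∈ A.image c then inv l else l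

/-- exchange `τ a` and `c a` for `a ∈ A` -/
def ex2 (l : L) : L := if τ l ∈ A then c (τ l) else if l ∈ A.image c then τ (inv l) else l

structure ExHyp : Prop where
  tt : ∀ l, τ (τ l) = l
  cinv : ∀ a ∈ A, inv (c a) = a
  cA : ∀ a ∈ A, c a ∉ A
  cT : ∀ a ∈ A, τ (c a) = c a
  AT : ∀ a ∈ A, τ a ∉ A
  cov : ∀ l, τ l ≠ l → l ∈ A ∨ τ l ∈ A

variable {A c inv τ}

theorem ExHyp.e1A (_h : ExHyp A c inv τ) {l : L} (hl : l ∈ A) : ex1 A c inv l = c l := by
  simp [ex1, hl]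

theorem ExHyp.e1c (h : ExHyp A c inv τ) {a : L} (ha : a ∈ A) : ex1 A c inv (c a) = a := by
  have h1 := h.cA a ha
  have h2 : c a ∈ A.image c := mem_image_of_mem _ ha
  rw [ex1, if_neg h1, if_pos h2, h.cinv a ha]

theorem ex1_other {l : L} (hl : l ∉ A) (hc : l ∉ A.image c) : ex1 A c inv l = l := by
  rw [ex1, if_neg hl, if_neg hc]

theorem ExHyp.e2T (h : ExHyp A c inv τ) {a : L} (ha : a ∈ A) : ex2 A c inv τ (τ a) = c a := by
  rw [ex2, h.tt, if_pos ha]

theorem ExHyp.e2c (h : ExHyp A c inv τ) {a : L} (ha : a ∈ A) : ex2 A c inv τ (c a) = τ a := by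
  have h1 := h.cA a ha
  have h2 : c a ∈ A.image c := mem_image_of_mem _ ha
  rw [ex2, h.cT a ha, if_neg h1, if_pos h2, h.cinv a ha]

theorem ex2_other {l : L} (hl : τ l ∉ A) (hc : l ∉ A.image c) : ex2 A c inv τ l = l := by
  rw [ex2, if_neg hl, if_neg hc]

/-- cases for `ex1` -/
theorem ex1_cases (l : L) : (l ∈ A) ∨ (∃ a ∈ A, l = c a) ∨ (l ∉ A ∧ l ∉ A.image c) := by
  by_cases h1 : l ∈ A
  · exact Or.inl h1
  by_cases h2 : l ∈ A.image c
  · obtain ⟨a, ha, rfl⟩ := mem_image.mp h2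
    exact Or.inr (Or.inl ⟨a, ha, rfl⟩)
  · exact Or.inr (Or.inr ⟨h1, h2⟩)

theorem ExHyp.cases2 (h : ExHyp A c inv τ) (l : L) :
    (∃ a ∈ A, l = τ a) ∨ (∃ a ∈ A, l = c a) ∨ (τ l ∉ A ∧ l ∉ A.image c) := by
  by_cases h1 : τ l ∈ A
  · exact Or.inl ⟨τ l, h1, (h.tt l).symm⟩
  by_cases h2 : l ∈ A.image c
  · obtain ⟨a, ha, rfl⟩ := mem_image.mp h2
    exact Or.inr (Or.inl ⟨a, ha, rfl⟩)
  · exact Or.inr (Or.inr ⟨h1, h2⟩)

theorem ExHyp.inv1 (h : ExHyp A c inv τ) : Function.Involutive (ex1 A c inv) := by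
  intro l
  rcases ex1_cases (A := A) (c := c) l with h1 | ⟨a, ha, rfl⟩ | ⟨h1, h2⟩
  · rw [h.e1A h1, h.e1c h1]
  · rw [h.e1c ha, h.e1A ha]
  · rw [ex1_other h1 h2, ex1_other h1 h2]

theorem ExHyp.inv2 (h : ExHyp A c inv τ) : Function.Involutive (ex2 A c inv τ) := by
  intro l
  rcases h.cases2 l with ⟨a, ha, rfl⟩ | ⟨a, ha, rfl⟩ | ⟨h1, h2⟩
  · rw [h.e2T ha, h.e2c ha]
  · rw [h.e2c ha, h.e2T ha]
  · rw [ex2_other h1 h2, ex2_other h1 h2]

theorem ExHyp.comp (h : ExHyp A c inv τ) (l : L) :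
    ex1 A c inv (ex2 A c inv τ (ex1 A c inv l)) = τ l := by
  by_cases h1 : l ∈ A
  · rw [h.e1A h1, h.e2c h1]
    refine ex1_other (h.AT l h1) ?_
    intro hc
    obtain ⟨a, ha, hal⟩ := mem_image.mp hc
    have := h.cT a ha
    rw [hal, h.tt] at this
    exact h.AT l h1 (this ▸ h1)
  by_cases h2 : τ l ∈ A
  · have h3 : l ∉ A.image c := by
      intro hc
      obtain ⟨a, ha, rfl⟩ := mem_image.mp hc
      rw [h.cT a ha] at h2
      exact h1 h2
    rw [ex1_other h1 h3]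
    have := h.e2T h2
    rw [h.tt] at this
    rw [this, h.e1c h2]
  have h4 : τ l = l := by
    by_contra hne
    rcases h.cov l hne with h5 | h5
    · exact h1 h5
    · exact h2 h5
  by_cases h3 : l ∈ A.image c
  · obtain ⟨a, ha, rfl⟩ := mem_image.mp h3
    rw [h.e1c ha]
    have h5 : a ∉ A.image c := by
      intro hc
      obtain ⟨a', ha', haa⟩ := mem_image.mp hc
      exact h.cA a' ha' (haa ▸ ha)
    rw [ex2_other (h.AT a ha) h5, h.e1A ha, h.cT a ha]
  · rw [ex1_other h1 h3, ex2_other h2 h3, ex1_other h1 h3, h4]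

end Exch

/-! ### Baseline lines -/

/-- iterating the layer maps -/
def bline {V : Type} (G : ℕ → V → V) (x : V) : ℕ → V
  | 0 => x
  | i + 1 => G i (bline G x i)

section Base

variable {V : Type} [Fintype V] {D : V → V → Prop} {ε : ℝ}

/-- Layer maps extending the `c`-lines. -/
theorem base_map (hD : Host D ε) {W W' : Finset V} {m : ℕ} (hW : W.card = m) (hW' : W'.card = m)
    (hS : Sample D ε (ε / 80) W) (hS' : Sample D ε (ε / 80) W') (b : Bool)
    {ι : Type} (C : Finset ι) (x y : ι → V) (hx : ∀ γ ∈ C, x γ ∈ W) (hy : ∀ γ ∈ C, y γ ∈ W')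
    (hxi : ∀ γ ∈ C, ∀ γ' ∈ C, x γ = x γ' → γ = γ') (hyi : ∀ γ ∈ C, ∀ γ' ∈ C, y γ = y γ' → γ = γ')
    (hC : (C.card : ℝ) ≤ ε / 80 * (m : ℝ)) (ha : ∀ γ ∈ C, Adj D b (x γ) (y γ)) :
    ∃ G : V → V, (∀ v ∈ W, G v ∈ W') ∧ Set.InjOn G (W : Set V) ∧ (∀ v ∈ W, Adj D b v (G v)) ∧
      ∀ γ ∈ C, G (x γ) = y γ := by
  have hε := hD.pos
  have hε1 := hD.le
  set X := C.image x with hX
  set Y := C.image y with hY
  have hXW : X ⊆ W := by
    intro v hv
    obtain ⟨γ, hγ, rfl⟩ := mem_image.mp hv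
    exact hx γ hγ
  have hYW : Y ⊆ W' := by
    intro v hv
    obtain ⟨γ, hγ, rfl⟩ := mem_image.mp hv
    exact hy γ hγ
  have hXc : X.card = C.card := card_image_of_injOn (fun γ hγ γ' hγ' h => hxi γ hγ γ' hγ' h)
  have hYc : Y.card = C.card := card_image_of_injOn (fun γ hγ γ' hγ' h => hyi γ hγ γ' hγ' h)
  have sub : ∀ Z Q : Finset V, Z ⊆ Q → Q.card = m → Z.card = C.card → Sample D ε (ε / 80) Q →
      Sample D ε (ε / 20) (Q \ Z) := by
    intro Z Q hZQ hQ hZ hSQ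
    have h1 : Q \ (Q \ Z) = Z := by
      rw [sdiff_sdiff_right_self]
      exact inf_eq_right.mpr hZQ
    have h2 := Sample.sub (δ := ε / 80) hSQ (by positivity) (by positivity) (by linarith)
      (sdiff_subset : Q \ Z ⊆ Q) (by rw [h1, hZ, hQ]; exact hC)
    have h3 : 2 * (ε / 80 + ε / 80) = ε / 20 := by ring
    rwa [h3] at h2
  have hc : (W \ X).card = (W' \ Y).card := by
    rw [card_sdiff_of_subset hXW, card_sdiff_of_subset hYW, hW, hW', hXc, hYc]
  obtain ⟨f, f1, f2, f3⟩ := hD.matching (sub X W hXW hW hXc hS) (sub Y W' hYW hW' hYc hS') hc b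
  -- the map on the lines
  have key : ∀ v : V, ∃ u : V, (∀ γ ∈ C, x γ = v → u = y γ) ∧ (v ∉ X → u = f v) := by
    intro v
    by_cases hv : v ∈ X
    · obtain ⟨γ, hγ, rfl⟩ := mem_image.mp hv
      exact ⟨y γ, fun γ' hγ' h => by rw [hxi γ' hγ' γ hγ h], fun h => absurd hv h⟩
    · exact ⟨f v, fun γ hγ h => absurd (h ▸ mem_image_of_mem x hγ) hv, fun _ => rfl⟩
  choose G hG1 hG2 using key
  have hGx : ∀ γ ∈ C, G (x γ) = y γ := fun γ hγ => hG1 (x γ) γ hγ rfl
  refine ⟨G, ?_, ?_, ?_, hGx⟩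
  · intro v hv
    by_cases hvX : v ∈ X
    · obtain ⟨γ, hγ, rfl⟩ := mem_image.mp hvX
      rw [hGx γ hγ]
      exact hy γ hγ
    · rw [hG2 v hvX]
      exact (mem_sdiff.mp (f1 v (mem_sdiff.mpr ⟨hv, hvX⟩))).1
  · intro v hv w hw hvw
    by_cases hvX : v ∈ X
    · obtain ⟨γ, hγ, rfl⟩ := mem_image.mp hvX
      by_cases hwX : w ∈ X
      · obtain ⟨γ', hγ', rfl⟩ := mem_image.mp hwX
        rw [hGx γ hγ, hGx γ' hγ'] at hvw
        rw [hyi γ hγ γ' hγ' hvw]
      · rw [hGx γ hγ, hG2 w hwX] at hvw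
        have := (mem_sdiff.mp (f1 w (mem_sdiff.mpr ⟨hw, hwX⟩))).2
        exact absurd (hvw ▸ mem_image_of_mem y hγ) this
    · by_cases hwX : w ∈ X
      · obtain ⟨γ', hγ', rfl⟩ := mem_image.mp hwX
        rw [hGx γ' hγ', hG2 v hvX] at hvw
        have := (mem_sdiff.mp (f1 v (mem_sdiff.mpr ⟨hv, hvX⟩))).2
        exact absurd (hvw.symm ▸ mem_image_of_mem y hγ') this
      · rw [hG2 v hvX, hG2 w hwX] at hvw
        exact f2 (mem_coe.mpr (mem_sdiff.mpr ⟨hv, hvX⟩)) (mem_coe.mpr (mem_sdiff.mpr ⟨hw, hwX⟩)) hvw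
  · intro v hv
    by_cases hvX : v ∈ X
    · obtain ⟨γ, hγ, rfl⟩ := mem_image.mp hvX
      rw [hGx γ hγ]
      exact ha γ hγ
    · rw [hG2 v hvX]
      exact f3 v (mem_sdiff.mpr ⟨hv, hvX⟩)

end Base

/-- Choosing distinct `c`-lines (Hall). -/
theorem choose_lines {L : Type} [Fintype L] (A : Finset L) (t : L → Finset L)
    (ht : ∀ a ∈ A, A.card ≤ (t a).card) :
    ∃ c : L → L, (∀ a ∈ A, c a ∈ t a) ∧ Set.InjOn c (A : Set L) := by
  have hall := (Finset.all_card_le_biUnion_card_iff_exists_injective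
    (fun a : A => t a.1)).mp (by
      intro s
      rcases s.eq_empty_or_nonempty with rfl | ⟨a, ha⟩
      · simp
      · calc s.card ≤ (univ : Finset A).card := card_le_univ s
          _ = A.card := by simp
          _ ≤ (t a.1).card := ht a.1 a.2
          _ ≤ _ := card_le_card (subset_biUnion_of_mem (fun a : A => t a.1) ha))
  obtain ⟨f, hf, hft⟩ := hall
  refine ⟨fun a => if h : a ∈ A then f ⟨a, h⟩ else a, ?_, ?_⟩
  · intro a ha
    simp only [ha, dite_true]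
    exact hft ⟨a, ha⟩
  · intro a ha a' ha' h
    have ha := mem_coe.mp ha
    have ha' := mem_coe.mp ha'
    simp only [ha, ha', dite_true] at h
    exact congrArg Subtype.val (hf h)

theorem block_of_clines (ε : ℝ) (_hε : 0 < ε)
    (hcl : ∃ κ : ℝ, 0 < κ ∧ ∀ θ : ℝ, 0 < θ →
    ∃ N₀ : ℕ, ∀ (V : Type) [Fintype V], N₀ ≤ Fintype.card V → ∀ D : V → V → Prop, Host D ε →
    ∀ (W : ℕ → Finset V) (m : ℕ), (∀ i ≤ 9, (W i).card = m ∧ Sample D ε (ε / 80) (W i)) →
    θ * (Fintype.card V : ℝ) ≤ (m : ℝ) → ∀ b : ℕ → Bool,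
    ∃ C : Finset (Fin 10 → V),
      (∀ γ ∈ C, ∀ i : Fin 10, γ i ∈ W i) ∧
      (∀ γ ∈ C, ∀ i : Fin 9, Adj D (b i) (γ i.castSucc) (γ i.succ)) ∧
      (∀ γ ∈ C, ∀ γ' ∈ C, γ ≠ γ' → ∀ i, γ i ≠ γ' i) ∧
      (C.card : ℝ) ≤ ε / 80 * (m : ℝ) ∧
      ∀ a0 a1 a4 a5 a8 a9 : V,
        κ * (m : ℝ) ≤ ((C.filter fun γ => GoodLine D b a0 a1 a4 a5 a8 a9 γ).card : ℝ)) :
    ∃ κ : ℝ, 0 < κ ∧ ∀ θ : ℝ, 0 < θ →
    ∃ N₀ : ℕ, ∀ (V : Type) [Fintype V], N₀ ≤ Fintype.card V → ∀ D : V → V → Prop, Host D ε →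
    ∀ (W : ℕ → Finset V) (m : ℕ), (∀ i ≤ 9, (W i).card = m ∧ Sample D ε (ε / 80) (W i)) →
    θ * (Fintype.card V : ℝ) ≤ (m : ℝ) → ∀ b : ℕ → Bool,
    ∀ (L : Type) [Fintype L], Fintype.card L = m → ∀ h : L → V, Function.Injective h →
    (∀ l, h l ∈ W 0) →
    ∃ g : L → V, Function.Injective g ∧ (∀ l, g l ∈ W 9) ∧
      ∀ τ : Equiv.Perm L, (∀ l, τ (τ l) = l) →
        ((univ.filter fun l => τ l ≠ l).card : ℝ) ≤ κ * (m : ℝ) →
        ∃ p : L → ℕ → V, PSys D 9 b W p ∧ (∀ l, p l 0 = h l) ∧ ∀ l, p l 9 = g (τ l) := by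
  obtain ⟨κ, hκ, hcl⟩ := hcl
  refine ⟨κ / 4, by positivity, fun θ hθ => ?_⟩
  obtain ⟨N₀, hN⟩ := hcl θ hθ
  refine ⟨N₀, ?_⟩
  intro V _ hV D hD W m hW hm b L _ hL h hinj hh
  obtain ⟨C, hC1, hC2, hC3, hC4, hC5⟩ := hN V hV D hD W m hW hm b
  -- the layer maps
  have hG : ∀ i : Fin 9, ∃ G : V → V, (∀ v ∈ W i, G v ∈ W (i + 1)) ∧
      Set.InjOn G (W i : Set V) ∧ (∀ v ∈ W i, Adj D (b i) v (G v)) ∧
      ∀ γ ∈ C, G (γ i.castSucc) = γ i.succ := by
    intro i
    have hi : (i : ℕ) ≤ 9 := i.2.le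
    have hi1 : (i : ℕ) + 1 ≤ 9 := i.2
    refine base_map hD (hW i hi).1 (hW (i + 1) hi1).1 (hW i hi).2 (hW (i + 1) hi1).2 (b i) C
      (fun γ => γ i.castSucc) (fun γ => γ i.succ) ?_ ?_ ?_ ?_ hC4 ?_
    · intro γ hγ
      have := hC1 γ hγ i.castSucc
      simpa using this
    · intro γ hγ
      have := hC1 γ hγ i.succ
      simpa using this
    · intro γ hγ γ' hγ' he
      by_contra hne
      exact hC3 γ hγ γ' hγ' hne _ he
    · intro γ hγ γ' hγ' he
      by_contra hne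
      exact hC3 γ hγ γ' hγ' hne _ he
    · intro γ hγ
      exact hC2 γ hγ i
  choose G0 hG1 hG2 hG3 hG4 using hG
  set G : ℕ → V → V := fun i => if hi : i < 9 then G0 ⟨i, hi⟩ else id with hGdef
  have G1 : ∀ i < 9, ∀ v ∈ W i, G i v ∈ W (i + 1) := by
    intro i hi v hv
    simp only [hGdef, hi, dite_true]
    exact hG1 ⟨i, hi⟩ v hv
  have G2 : ∀ i < 9, Set.InjOn (G i) (W i : Set V) := by
    intro i hi
    simp only [hGdef, hi, dite_true]
    exact hG2 ⟨i, hi⟩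
  have G3 : ∀ i < 9, ∀ v ∈ W i, Adj D (b i) v (G i v) := by
    intro i hi v hv
    simp only [hGdef, hi, dite_true]
    exact hG3 ⟨i, hi⟩ v hv
  have G4 : ∀ i (hi : i < 9), ∀ γ ∈ C, G i (γ ⟨i, by omega⟩) = γ ⟨i + 1, by omega⟩ := by
    intro i hi γ hγ
    simp only [hGdef, hi, dite_true]
    exact hG4 ⟨i, hi⟩ γ hγ
  -- the lines
  set q : L → ℕ → V := fun l => bline G (h l) with hq
  have q0 : ∀ l, q l 0 = h l := fun l => rfl
  have qs : ∀ l i, q l (i + 1) = G i (q l i) := fun l i => rfl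
  have qW : ∀ l, ∀ i ≤ 9, q l i ∈ W i := by
    intro l i
    induction i with
    | zero => intro _; exact hh l
    | succ i ih =>
      intro hi
      rw [qs]
      exact G1 i (by omega) _ (ih (by omega))
  have qinj : ∀ i ≤ 9, Function.Injective fun l => q l i := by
    intro i
    induction i with
    | zero => intro _; exact hinj
    | succ i ih =>
      intro hi l l' hll
      have hll' : G i (q l i) = G i (q l' i) := hll
      exact ih (by omega) (G2 i (by omega) (mem_coe.mpr (qW l i (by omega)))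
        (mem_coe.mpr (qW l' i (by omega))) hll')
  have qarc : ∀ l, ∀ i < 9, Adj D (b i) (q l i) (q l (i + 1)) := by
    intro l i hi
    rw [qs]
    exact G3 i hi _ (qW l i (by omega))
  have qC : ∀ l, ∀ γ ∈ C, h l = γ 0 → ∀ i (hi : i ≤ 9), q l i = γ ⟨i, by omega⟩ := by
    intro l γ hγ hl i
    induction i with
    | zero => intro _; exact hl
    | succ i ih =>
      intro hi
      rw [qs, ih (by omega)]
      exact G4 i (by omega) γ hγ
  refine ⟨fun l => q l 9, qinj 9 le_rfl, fun l => qW l 9 le_rfl, ?_⟩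
  intro τ hτ hsupp
  -- `h` is onto `W 0`
  have hsurj : ∀ v ∈ W 0, ∃ l, h l = v := by
    have h1 : univ.image h = W 0 := by
      refine eq_of_subset_of_card_le ?_ ?_
      · intro v hv
        obtain ⟨l, -, rfl⟩ := mem_image.mp hv
        exact hh l
      · rw [card_image_of_injective _ hinj, card_univ, hL, (hW 0 (by omega)).1]
    intro v hv
    rw [← h1] at hv
    obtain ⟨l, -, hl⟩ := mem_image.mp hv
    exact ⟨l, hl⟩
  -- representatives
  set e := Fintype.equivFin L with he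
  set S : Finset L := univ.filter fun l => τ l ≠ l with hS
  set A : Finset L := univ.filter fun l => e l < e (τ l) with hA
  have memA : ∀ l, l ∈ A ↔ e l < e (τ l) := fun l => by simp [hA]
  have memS : ∀ l, l ∈ S ↔ τ l ≠ l := fun l => by simp [hS]
  have hAS : A ⊆ S := by
    intro l hl
    rw [memA] at hl
    rw [memS]
    intro h1
    rw [h1] at hl
    exact lt_irrefl _ hl
  -- the number of good lines
  set good : L → Finset L := fun a => univ.filter fun l => l ∉ S ∧ ∃ γ ∈ C, h l = γ 0 ∧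
    GoodLine D b (q a 0) (q a 1) (q (τ a) 4) (q (τ a) 5) (q a 8) (q a 9) γ with hgood
  have hcard : ∀ a ∈ A, A.card ≤ (good a).card := by
    intro a ha
    set F := C.filter fun γ =>
      GoodLine D b (q a 0) (q a 1) (q (τ a) 4) (q (τ a) 5) (q a 8) (q a 9) γ with hF
    have hFc : κ * (m : ℝ) ≤ (F.card : ℝ) := hC5 _ _ _ _ _ _
    have hsub : F.image (fun γ => γ 0) ⊆ (good a ∪ S).image h := by
      intro v hv
      obtain ⟨γ, hγ, rfl⟩ := mem_image.mp hv
      have hγ1 := (mem_filter.mp hγ).1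
      have hγ2 := (mem_filter.mp hγ).2
      obtain ⟨l, hl⟩ := hsurj (γ 0) (hC1 γ hγ1 0)
      refine mem_image.mpr ⟨l, ?_, hl⟩
      rw [mem_union]
      by_cases hlS : l ∈ S
      · exact Or.inr hlS
      · left
        simp only [hgood, mem_filter, mem_univ, true_and]
        exact ⟨hlS, γ, hγ1, hl, hγ2⟩
    have h1 : F.card ≤ (good a).card + S.card := by
      calc F.card = (F.image (fun γ => γ 0)).card := by
            refine (card_image_of_injOn ?_).symm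
            intro γ hγ γ' hγ' h0
            by_contra hne
            exact hC3 γ (mem_filter.mp (mem_coe.mp hγ)).1 γ' (mem_filter.mp (mem_coe.mp hγ')).1
              hne 0 h0
        _ ≤ ((good a ∪ S).image h).card := card_le_card hsub
        _ ≤ (good a ∪ S).card := card_image_le
        _ ≤ _ := card_union_le _ _
    have h2 : A.card ≤ S.card := card_le_card hAS
    have h3 : (F.card : ℝ) ≤ ((good a).card : ℝ) + (S.card : ℝ) := by exact_mod_cast h1
    have h4 : (A.card : ℝ) ≤ (S.card : ℝ) := by exact_mod_cast h2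
    have h5 : (0 : ℝ) ≤ κ * (m : ℝ) := by positivity
    have h6 : (S.card : ℝ) ≤ κ / 4 * (m : ℝ) := hsupp
    have h7 : (A.card : ℝ) ≤ ((good a).card : ℝ) := by nlinarith
    exact_mod_cast h7
  obtain ⟨c, hc1, hc2⟩ := choose_lines A good hcard
  have hcS : ∀ a ∈ A, c a ∉ S := fun a ha => (mem_filter.mp (hc1 a ha)).2.1
  have hcg : ∀ a ∈ A, ∃ γ ∈ C, h (c a) = γ 0 ∧
    GoodLine D b (q a 0) (q a 1) (q (τ a) 4) (q (τ a) 5) (q a 8) (q a 9) γ :=
    fun a ha => (mem_filter.mp (hc1 a ha)).2.2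
  -- the inverse of `c`
  have hinv : ∃ inv : L → L, ∀ a ∈ A, inv (c a) = a := by
    by_cases hne : Nonempty L
    · exact ⟨Function.invFunOn c (A : Set L), fun a ha => hc2.leftInvOn_invFunOn (mem_coe.mpr ha)⟩
    · exact ⟨id, fun a _ => absurd ⟨a⟩ hne⟩
  obtain ⟨inv, hinv⟩ := hinv
  have H : ExHyp A c inv τ := by
    refine ⟨hτ, hinv, fun a ha h1 => hcS a ha (hAS h1), ?_, ?_, ?_⟩
    · intro a ha
      by_contra h1
      exact hcS a ha ((memS _).mpr h1)
    · intro a ha h1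
      rw [memA] at ha h1
      rw [hτ] at h1
      exact lt_asymm ha h1
    · intro l hl
      rw [memA, memA, hτ]
      rcases lt_trichotomy (e l) (e (τ l)) with h1 | h1 | h1
      · exact Or.inl h1
      · exact absurd (e.injective h1).symm hl
      · exact Or.inr h1
  -- the arcs of the exchanges
  have arc0 : ∀ l, Adj D (b 0) (q l 0) (q (ex1 A c inv l) 1) := by
    intro l
    rcases ex1_cases (A := A) (c := c) l with h1 | ⟨a, ha, rfl⟩ | ⟨h1, h2⟩
    · rw [H.e1A h1]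
      obtain ⟨γ, hγ, hγ0, g1, g2, g3, g4, g5, g6⟩ := hcg l h1
      rw [qC (c l) γ hγ hγ0 1 (by omega)]
      exact g1
    · rw [H.e1c ha]
      obtain ⟨γ, hγ, hγ0, g1, g2, g3, g4, g5, g6⟩ := hcg a ha
      rw [qC (c a) γ hγ hγ0 0 (by omega)]
      exact g2
    · rw [ex1_other h1 h2]
      exact qarc l 0 (by omega)
  have arc4 : ∀ l, Adj D (b 4) (q l 4) (q (ex2 A c inv τ l) 5) := by
    intro l
    rcases H.cases2 l with ⟨a, ha, rfl⟩ | ⟨a, ha, rfl⟩ | ⟨h1, h2⟩
    · rw [H.e2T ha]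
      obtain ⟨γ, hγ, hγ0, g1, g2, g3, g4, g5, g6⟩ := hcg a ha
      rw [qC (c a) γ hγ hγ0 5 (by omega)]
      exact g3
    · rw [H.e2c ha]
      obtain ⟨γ, hγ, hγ0, g1, g2, g3, g4, g5, g6⟩ := hcg a ha
      rw [qC (c a) γ hγ hγ0 4 (by omega)]
      exact g4
    · rw [ex2_other h1 h2]
      exact qarc l 4 (by omega)
  have arc8 : ∀ l, Adj D (b 8) (q l 8) (q (ex1 A c inv l) 9) := by
    intro l
    rcases ex1_cases (A := A) (c := c) l with h1 | ⟨a, ha, rfl⟩ | ⟨h1, h2⟩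
    · rw [H.e1A h1]
      obtain ⟨γ, hγ, hγ0, g1, g2, g3, g4, g5, g6⟩ := hcg l h1
      rw [qC (c l) γ hγ hγ0 9 (by omega)]
      exact g5
    · rw [H.e1c ha]
      obtain ⟨γ, hγ, hγ0, g1, g2, g3, g4, g5, g6⟩ := hcg a ha
      rw [qC (c a) γ hγ hγ0 8 (by omega)]
      exact g6
    · rw [ex1_other h1 h2]
      exact qarc l 8 (by omega)
  -- the lines of the tokens
  set s1 := ex1 A c inv with hs1
  set s2 := ex2 A c inv τ with hs2
  set π : ℕ → L → L := fun i l => if i = 0 then l else if i ≤ 4 then s1 l else if i ≤ 8 then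
    s2 (s1 l) else s1 (s2 (s1 l)) with hπ
  have i1 : Function.Injective s1 := H.inv1.injective
  have i2 : Function.Injective s2 := H.inv2.injective
  have πinj : ∀ i, Function.Injective (π i) := by
    intro i
    simp only [hπ]
    split_ifs
    · exact Function.injective_id
    · exact i1
    · exact i2.comp i1
    · exact i1.comp (i2.comp i1)
  refine ⟨fun l i => q (π i l) i, ⟨?_, ?_, ?_⟩, ?_, ?_⟩
  · intro l i hi
    exact qW _ i hi
  · intro i hi l l' hll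
    exact πinj i (qinj i hi hll)
  · intro l i hi
    show Adj D (b i) (q (π i l) i) (q (π (i + 1) l) (i + 1))
    have hcase : i = 0 ∨ (1 ≤ i ∧ i ≤ 3) ∨ i = 4 ∨ (5 ≤ i ∧ i ≤ 7) ∨ i = 8 := by omega
    rcases hcase with rfl | ⟨h1, h2⟩ | rfl | ⟨h1, h2⟩ | rfl
    · have e0 : π 0 l = l := by simp [hπ]
      have e1 : π (0 + 1) l = s1 l := by simp [hπ]
      rw [e0, e1]
      exact arc0 l
    · have e0 : π i l = s1 l := by
        simp only [hπ]
        rw [if_neg (by omega), if_pos (by omega)]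
      have e1 : π (i + 1) l = s1 l := by
        simp only [hπ]
        rw [if_neg (by omega), if_pos (by omega)]
      rw [e0, e1]
      exact qarc _ i hi
    · have e0 : π 4 l = s1 l := by simp [hπ]
      have e1 : π (4 + 1) l = s2 (s1 l) := by simp [hπ]
      rw [e0, e1]
      exact arc4 (s1 l)
    · have e0 : π i l = s2 (s1 l) := by
        simp only [hπ]
        rw [if_neg (by omega), if_neg (by omega), if_pos (by omega)]
      have e1 : π (i + 1) l = s2 (s1 l) := by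
        simp only [hπ]
        rw [if_neg (by omega), if_neg (by omega), if_pos (by omega)]
      rw [e0, e1]
      exact qarc _ i hi
    · have e0 : π 8 l = s2 (s1 l) := by simp [hπ]
      have e1 : π (8 + 1) l = s1 (s2 (s1 l)) := by simp [hπ]
      rw [e0, e1]
      exact arc8 (s2 (s1 l))
  · intro l
    show q (π 0 l) 0 = h l
    simp [hπ, q0]
  · intro l
    show q (π 9 l) 9 = q (τ l) 9
    have e9 : π 9 l = τ l := by
      have : π 9 l = s1 (s2 (s1 l)) := by simp [hπ]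
      rw [this]
      exact H.comp l
    rw [e9]

end

end OT
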