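import Pool.Agent.Helper27.OT.Defs

/-!
# MP_2857a5_co : the vertices that will be embedded greedily (used by LC, SC and the final files)
-/

set_option autoImplicit false

open Finset
open scoped Classical

namespace OT

noncomputable section

variable {n : ℕ} {T : PTree n} {U : Finset (Fin n)} {R : Type}

/-- The vertices that will be embedded greedily. -/
def NBof (S : Roles T U R) (Ra : Finset R) : Finset (Fin n) :=
  univ.filter fun v => v ∈ U ∨ S.role v ∈ Ra

end

end OT
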