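import Pool.Agent.Helper42.OT.RL
import Pool.Agent.Helper73.OT.NB

/-!
# MP_2857a5_co, module LC: counting leaves
-/

set_option autoImplicit false

open Finset
open scoped Classical

namespace OT

noncomputable section

variable {n : ℕ} {T : PTree n} {U : Finset (Fin n)} {R : Type}

theorem LC_par_notMem (S : Roles T U R) {v : Fin n} (hv : v ∉ U) (h : S.prl (S.role v) ≠ none) :
    T.par v ∉ U := fun hp => h (S.top v hv hp)

/-- Two nonempty classes with the same parent role have the same size. -/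
theorem LC_card_eq (S : Roles T U R) {ρ ρ' : R} (h : (S.cls ρ).Nonempty) (h' : (S.cls ρ').Nonempty)
    (hp : S.prl ρ ≠ none) (he : S.prl ρ = S.prl ρ') : (S.cls ρ).card = (S.cls ρ').card := by
  obtain ⟨v, hv⟩ := h
  obtain ⟨w, hw⟩ := h'
  simp only [Roles.cls, mem_filter, mem_univ, true_and] at hv hw
  obtain ⟨hv, rfl⟩ := hv
  obtain ⟨hw, rfl⟩ := hw
  have pv := LC_par_notMem S hv hp
  have pw := LC_par_notMem S hw (he ▸ hp)
  rw [S.cls_card hv pv, S.cls_card hw pw]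
  have h1 := S.par v hv pv
  have h2 := S.par w hw pw
  rw [he, h2] at h1
  rw [Option.some.inj h1]

/-- The number of classes with a given parent role. -/
theorem LC_fiber (S : Roles T U R) (Δ : ℕ) (hΔ : T.Deg Δ)
    (h0 : ∀ i : Fin n, (i : ℕ) = 0 → i ∈ U) (P : Finset R)
    (hP : ∀ ρ ∈ P, (S.cls ρ).Nonempty ∧ S.prl ρ ≠ none) {lam : R} (hl : lam ∈ P) :
    (P.filter fun ρ => S.prl ρ = S.prl lam).card ≤ Δ := by
  obtain ⟨⟨v, hv⟩, hlp⟩ := hP lam hl
  simp only [Roles.cls, mem_filter, mem_univ, true_and] at hv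
  obtain ⟨hv, rfl⟩ := hv
  have pv := LC_par_notMem S hv hlp
  have key : ∀ ρ ∈ P.filter (fun ρ => S.prl ρ = S.prl (S.role v)),
      ∃ w ∈ T.ch (T.par v), S.role w = ρ := by
    intro ρ hρ
    obtain ⟨hρ1, hρ2⟩ := mem_filter.mp hρ
    obtain ⟨⟨w, hw⟩, hρp⟩ := hP ρ hρ1
    simp only [Roles.cls, mem_filter, mem_univ, true_and] at hw
    obtain ⟨hw, rfl⟩ := hw
    have pw := LC_par_notMem S hw hρp
    have h1 := S.par v hv pv
    have h2 := S.par w hw pw
    rw [hρ2, h1] at h2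
    obtain ⟨w', hw', hr, hpar⟩ := S.surj w hw pw (T.par v) pv (Option.some.inj h2)
    refine ⟨w', ?_, hr⟩
    simp only [PTree.ch, mem_filter, mem_univ, true_and]
    exact ⟨fun h => hw' (h0 w' h), hpar⟩
  haveI : Nonempty (Fin n) := ⟨v⟩
  choose! f hf1 hf2 using key
  calc (P.filter fun ρ => S.prl ρ = S.prl (S.role v)).card ≤ (T.ch (T.par v)).card := by
        refine card_le_card_of_injOn f (fun ρ hρ => hf1 ρ hρ) ?_
        intro ρ hρ ρ' hρ' h
        rw [← hf2 ρ hρ, ← hf2 ρ' hρ', h]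
    _ ≤ Δ := hΔ _

theorem leaf_roles [Fintype R] (Δ : ℕ) (hΔ : T.Deg Δ)
    (h0 : ∀ i : Fin n, (i : ℕ) = 0 → i ∈ U) (S : Roles T U R) (Ra : Finset R)
    (hRa : ∀ v, v ∉ U → T.par v ∉ U → (S.role v ∈ Ra ↔ S.role (T.par v) ∈ Ra)) :
    ∃ (σ : Bool) (Λ : Finset R),
      (∀ ρ ∈ Λ, ρ ∉ Ra ∧ (S.cls ρ).Nonempty ∧ S.ncl ρ = 0 ∧ S.sgl ρ = σ ∧ S.prl ρ ≠ none) ∧
      Set.InjOn S.prl (Λ : Set R) ∧
      (univ.filter fun v => T.nch v = 0).card ≤
        2 * Δ * (∑ ρ ∈ Λ, (S.cls ρ).card) + (Δ + 1) * (NBof S Ra).card := by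
  set P : Bool → Finset R := fun σ => univ.filter fun ρ =>
    ρ ∉ Ra ∧ (S.cls ρ).Nonempty ∧ S.ncl ρ = 0 ∧ S.sgl ρ = σ ∧ S.prl ρ ≠ none with hPdef
  have memP : ∀ σ ρ, ρ ∈ P σ ↔
      (ρ ∉ Ra ∧ (S.cls ρ).Nonempty ∧ S.ncl ρ = 0 ∧ S.sgl ρ = σ ∧ S.prl ρ ≠ none) :=
    fun σ ρ => by simp [hPdef]
  -- for each sign a set of representatives
  have rep : ∀ σ, ∃ Λ ⊆ P σ, Set.InjOn S.prl (Λ : Set R) ∧
      ∑ ρ ∈ P σ, (S.cls ρ).card ≤ Δ * ∑ ρ ∈ Λ, (S.cls ρ).card := by
    intro σ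
    obtain ⟨Λ, hΛ1, hΛ2, hΛ3⟩ : ∃ Λ ⊆ P σ, Set.InjOn S.prl (Λ : Set R) ∧
        ∀ ρ ∈ P σ, ∃ lam ∈ Λ, S.prl ρ = S.prl lam := by
      have hc : ∀ o ∈ (P σ).image S.prl, ∃ ρ ∈ P σ, S.prl ρ = o := fun o ho => mem_image.mp ho
      rcases isEmpty_or_nonempty R with hR | hR
      · exact ⟨∅, empty_subset _, fun x _ => (hR.false x).elim, fun x _ => (hR.false x).elim⟩
      choose! r hr1 hr2 using hc
      refine ⟨((P σ).image S.prl).image r, ?_, ?_, ?_⟩
      · intro ρ hρ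
        obtain ⟨o, ho, rfl⟩ := mem_image.mp hρ
        exact hr1 o ho
      · intro ρ hρ ρ' hρ' h
        obtain ⟨o, ho, rfl⟩ := mem_image.mp (mem_coe.mp hρ)
        obtain ⟨o', ho', rfl⟩ := mem_image.mp (mem_coe.mp hρ')
        rw [hr2 o ho, hr2 o' ho'] at h
        rw [h]
      · intro ρ hρ
        have ho : S.prl ρ ∈ (P σ).image S.prl := mem_image_of_mem _ hρ
        exact ⟨r (S.prl ρ), mem_image_of_mem _ ho, (hr2 _ ho).symm⟩
    refine ⟨Λ, hΛ1, hΛ2, ?_⟩
    calc ∑ ρ ∈ P σ, (S.cls ρ).card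
        = ∑ o ∈ Λ.image S.prl, ∑ ρ ∈ (P σ).filter (fun ρ => S.prl ρ = o), (S.cls ρ).card := by
          refine (sum_fiberwise_of_maps_to ?_ _).symm
          intro ρ hρ
          obtain ⟨lam, hl, he⟩ := hΛ3 ρ hρ
          rw [he]
          exact mem_image_of_mem _ hl
      _ = ∑ lam ∈ Λ, ∑ ρ ∈ (P σ).filter (fun ρ => S.prl ρ = S.prl lam), (S.cls ρ).card :=
          sum_image hΛ2
      _ ≤ ∑ lam ∈ Λ, Δ * (S.cls lam).card := by
          refine sum_le_sum fun lam hl => ?_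
          have hlP := hΛ1 hl
          calc ∑ ρ ∈ (P σ).filter (fun ρ => S.prl ρ = S.prl lam), (S.cls ρ).card
              = ∑ ρ ∈ (P σ).filter (fun ρ => S.prl ρ = S.prl lam), (S.cls lam).card := by
                refine sum_congr rfl fun ρ hρ => ?_
                obtain ⟨hρ1, hρ2⟩ := mem_filter.mp hρ
                exact LC_card_eq S ((memP σ ρ).mp hρ1).2.1 ((memP σ lam).mp hlP).2.1
                  ((memP σ ρ).mp hρ1).2.2.2.2 hρ2
            _ = ((P σ).filter (fun ρ => S.prl ρ = S.prl lam)).card * (S.cls lam).card := by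
                rw [sum_const, smul_eq_mul]
            _ ≤ Δ * (S.cls lam).card := by
                refine Nat.mul_le_mul_right _ (LC_fiber S Δ hΔ h0 (P σ) ?_ hlP)
                intro ρ hρ
                exact ⟨((memP σ ρ).mp hρ).2.1, ((memP σ ρ).mp hρ).2.2.2.2⟩
      _ = Δ * ∑ ρ ∈ Λ, (S.cls ρ).card := by rw [mul_sum]
  choose Λ hΛ1 hΛ2 hΛ3 using rep
  set NB := NBof S Ra with hNB
  have memNB : ∀ v, v ∈ NB ↔ (v ∈ U ∨ S.role v ∈ Ra) := fun v => by simp [hNB, NBof]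
  -- the leaves
  have hcount : (univ.filter fun v => T.nch v = 0).card ≤
      NB.card + Δ * NB.card + (∑ ρ ∈ P true, (S.cls ρ).card + ∑ ρ ∈ P false, (S.cls ρ).card) := by
    have hsub : (univ.filter fun v => T.nch v = 0) ⊆
        NB ∪ NB.biUnion (fun u => T.ch u) ∪ ((P true).biUnion S.cls ∪ (P false).biUnion S.cls) := by
      intro v hv
      have hv0 : T.nch v = 0 := (mem_filter.mp hv).2
      by_cases h1 : v ∈ NB
      · exact mem_union_left _ (mem_union_left _ h1)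
      have h1' := h1
      rw [memNB, not_or] at h1'
      have hvne : (v : ℕ) ≠ 0 := fun h => h1'.1 (h0 v h)
      by_cases h2 : T.par v ∈ NB
      · refine mem_union_left _ (mem_union_right _ (mem_biUnion.mpr ⟨T.par v, h2, ?_⟩))
        simp only [PTree.ch, mem_filter, mem_univ, true_and]
        exact ⟨hvne, trivial⟩
      have h2' := h2
      rw [memNB, not_or] at h2'
      refine mem_union_right _ ?_
      have hpr : S.prl (S.role v) ≠ none := by
        rw [S.par v h1'.1 h2'.1]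
        exact Option.some_ne_none _
      have hcl : v ∈ S.cls (S.role v) := by
        simp only [Roles.cls, mem_filter, mem_univ, true_and]
        exact ⟨h1'.1, trivial⟩
      have hin : S.role v ∈ P (S.sgl (S.role v)) := by
        rw [memP]
        exact ⟨h1'.2, ⟨v, hcl⟩, by rw [S.nc v h1'.1, hv0], rfl, hpr⟩
      cases hb : S.sgl (S.role v) with
      | true =>
        rw [hb] at hin
        exact mem_union_left _ (mem_biUnion.mpr ⟨_, hin, hcl⟩)
      | false =>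
        rw [hb] at hin
        exact mem_union_right _ (mem_biUnion.mpr ⟨_, hin, hcl⟩)
    calc (univ.filter fun v => T.nch v = 0).card ≤ _ := card_le_card hsub
      _ ≤ (NB ∪ NB.biUnion (fun u => T.ch u)).card +
          ((P true).biUnion S.cls ∪ (P false).biUnion S.cls).card := card_union_le _ _
      _ ≤ (NB.card + (NB.biUnion (fun u => T.ch u)).card) +
          (((P true).biUnion S.cls).card + ((P false).biUnion S.cls).card) :=
          add_le_add (card_union_le _ _) (card_union_le _ _)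
      _ ≤ (NB.card + Δ * NB.card) + (∑ ρ ∈ P true, (S.cls ρ).card +
          ∑ ρ ∈ P false, (S.cls ρ).card) := by
          refine add_le_add (add_le_add le_rfl ?_) (add_le_add card_biUnion_le card_biUnion_le)
          calc (NB.biUnion (fun u => T.ch u)).card ≤ ∑ u ∈ NB, (T.ch u).card := card_biUnion_le
            _ ≤ ∑ u ∈ NB, Δ := sum_le_sum fun u _ => hΔ u
            _ = Δ * NB.card := by rw [sum_const, smul_eq_mul, mul_comm]
  have hfin : ∀ σ, ∑ ρ ∈ P (!σ), (S.cls ρ).card ≤ ∑ ρ ∈ P σ, (S.cls ρ).card →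
      (univ.filter fun v => T.nch v = 0).card ≤
        2 * Δ * (∑ ρ ∈ Λ σ, (S.cls ρ).card) + (Δ + 1) * NB.card := by
    intro σ hσ
    have h1 := hΛ3 σ
    have h2 : ∑ ρ ∈ P true, (S.cls ρ).card + ∑ ρ ∈ P false, (S.cls ρ).card ≤
        2 * ∑ ρ ∈ P σ, (S.cls ρ).card := by
      cases σ
      · simp only [Bool.not_false] at hσ
        omega
      · simp only [Bool.not_true] at hσ
        omega
    calc (univ.filter fun v => T.nch v = 0).card
        ≤ NB.card + Δ * NB.card + (∑ ρ ∈ P true, (S.cls ρ).card +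
          ∑ ρ ∈ P false, (S.cls ρ).card) := hcount
      _ ≤ NB.card + Δ * NB.card + 2 * (Δ * ∑ ρ ∈ Λ σ, (S.cls ρ).card) :=
          add_le_add le_rfl (h2.trans (Nat.mul_le_mul_left 2 h1))
      _ = _ := by ring
  rcases le_total (∑ ρ ∈ P false, (S.cls ρ).card) (∑ ρ ∈ P true, (S.cls ρ).card) with h | h
  · exact ⟨true, Λ true, fun ρ hρ => (memP true ρ).mp (hΛ1 true hρ), hΛ2 true, hfin true h⟩
  · exact ⟨false, Λ false, fun ρ hρ => (memP false ρ).mp (hΛ1 false hρ), hΛ2 false, hfin false h⟩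

end

end OT
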